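import Pool.Agent.Q255.TQ.Stm
import Pool.Agent.H510R2.Div

/-!
Project TQ (helper255), jobs KRM and DIV.
-/

set_option autoImplicit false

namespace Pool.Agent.Q148.TQ

open Finset Pool.Agent.Q255.TQ Pool.Agent.H306R2.RZ
open Pool.Agent.Q122.FM (kron IsFund kr2)

lemma odd_part_ne {n : ℕ} (hn : 1 ≤ n) : n / 2 ^ (n.factorization 2) ≠ 0 :=
  (Nat.ordCompl_pos 2 (by omega)).ne'

lemma kron_mul (D : ℤ) (m n : ℕ) (hm : 1 ≤ m) (hn : 1 ≤ n) :
    kron D (m * n) = kron D m * kron D n := by
  unfold kron
  have h1 : (m * n).factorization 2 = m.factorization 2 + n.factorization 2 := by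
    rw [Nat.factorization_mul (by omega) (by omega)]
    rfl
  have h2 : m * n / 2 ^ ((m * n).factorization 2) =
      (m / 2 ^ (m.factorization 2)) * (n / 2 ^ (n.factorization 2)) := Nat.ordCompl_mul m n 2
  have : NeZero (m / 2 ^ (m.factorization 2)) := ⟨odd_part_ne hm⟩
  have : NeZero (n / 2 ^ (n.factorization 2)) := ⟨odd_part_ne hn⟩
  rw [h2, jacobiSym.mul_right, h1, pow_add]
  ring

lemma kron_one (D : ℤ) : kron D 1 = 1 := by
  unfold kron
  simp

lemma kr2_cases (D : ℤ) : kr2 D = 0 ∨ kr2 D = 1 ∨ kr2 D = -1 := by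
  unfold kr2
  split_ifs <;> simp

lemma kr2_pow_abs (D : ℤ) (k : ℕ) : |kr2 D ^ k| ≤ 1 := by
  rw [abs_pow]
  apply pow_le_one₀ (abs_nonneg _)
  rcases kr2_cases D with h | h | h <;> simp [h]

lemma kron_abs (D : ℤ) (n : ℕ) : |kron D n| ≤ 1 := by
  unfold kron
  rw [abs_mul]
  have h1 := kr2_pow_abs D (n.factorization 2)
  have h2 : |jacobiSym D (n / 2 ^ (n.factorization 2))| ≤ 1 := by
    rcases jacobiSym.trichotomy D (n / 2 ^ (n.factorization 2)) with h | h | h <;> simp [h]
  exact mul_le_one₀ h1 (abs_nonneg _) h2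

lemma fund_odd {D : ℤ} (hD : IsFund D) (h : ¬ (2 : ℤ) ∣ D) : kr2 D = 1 ∨ kr2 D = -1 := by
  rcases hD with h1 | ⟨m, h1, -⟩
  · unfold kr2
    have : D % 8 = 1 ∨ D % 8 = 5 := by omega
    rcases this with h2 | h2 <;> simp [h2]
  · omega

lemma kr2_even {D : ℤ} (h : (2 : ℤ) ∣ D) : kr2 D = 0 := by
  unfold kr2
  rw [if_neg (by omega), if_neg (by omega)]

lemma kron_sq (D : ℤ) (hD : IsFund D) (l : ℕ) (hl : 1 ≤ l) :
    kron D (l ^ 2) = if D.natAbs.Coprime l then 1 else 0 := by
  rw [pow_two, kron_mul D l l hl hl]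
  have hne : NeZero (l / 2 ^ (l.factorization 2)) := ⟨odd_part_ne hl⟩
  by_cases hc : D.natAbs.Coprime l
  · rw [if_pos hc]
    have h1 : kron D l = 1 ∨ kron D l = -1 := by
      unfold kron
      have hj : jacobiSym D (l / 2 ^ (l.factorization 2)) ≠ 0 := by
        intro h0
        rw [jacobiSym.eq_zero_iff_not_coprime] at h0
        apply h0
        have hd : l / 2 ^ (l.factorization 2) ∣ l := Nat.ordCompl_dvd l 2
        have := Nat.Coprime.coprime_dvd_right hd hc
        rw [Int.gcd, Int.natAbs_natCast]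
        exact this
      have hj2 : jacobiSym D (l / 2 ^ (l.factorization 2)) = 1 ∨
          jacobiSym D (l / 2 ^ (l.factorization 2)) = -1 := by
        rcases jacobiSym.trichotomy D (l / 2 ^ (l.factorization 2)) with h | h | h
        · exact absurd h hj
        · exact Or.inl h
        · exact Or.inr h
      have hk : kr2 D ^ (l.factorization 2) = 1 ∨ kr2 D ^ (l.factorization 2) = -1 := by
        by_cases h2 : 2 ∣ l
        · have : ¬ (2 : ℤ) ∣ D := by
            intro h
            have h3 : 2 ∣ D.natAbs := Int.natCast_dvd.1 h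
            have := Nat.dvd_gcd h3 h2
            rw [hc] at this
            omega
          rcases fund_odd hD this with h | h
          · rw [h, one_pow]
            exact Or.inl rfl
          · rw [h]
            exact neg_one_pow_eq_or ℤ _
        · have : l.factorization 2 = 0 := Nat.factorization_eq_zero_of_not_dvd h2
          rw [this, pow_zero]
          exact Or.inl rfl
      rcases hk with hk | hk <;> rcases hj2 with hj2 | hj2 <;> rw [hk, hj2] <;> simp
    rcases h1 with h1 | h1 <;> rw [h1] <;> norm_num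
  · rw [if_neg hc]
    have h1 : kron D l = 0 := by
      obtain ⟨p, hp, hpD, hpl⟩ := Nat.Prime.not_coprime_iff_dvd.1 hc
      unfold kron
      by_cases h2 : p = 2
      · subst h2
        have h3 : (2 : ℤ) ∣ D := Int.natCast_dvd.2 hpD
        have h4 : l.factorization 2 ≠ 0 := by
          have := hp.factorization_pos_of_dvd (by omega) hpl
          omega
        rw [kr2_even h3, zero_pow h4, zero_mul]
      · have h0 : jacobiSym D (l / 2 ^ (l.factorization 2)) = 0 := by
          rw [jacobiSym.eq_zero_iff_not_coprime]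
          intro h3
          have hpo : p ∣ l / 2 ^ (l.factorization 2) := by
            have h5 : p ∣ 2 ^ (l.factorization 2) * (l / 2 ^ (l.factorization 2)) := by
              rw [Nat.ordProj_mul_ordCompl_eq_self]
              exact hpl
            rcases (Nat.Prime.dvd_mul hp).1 h5 with h6 | h6
            · exact absurd ((Nat.prime_dvd_prime_iff_eq hp Nat.prime_two).1
                (hp.dvd_of_dvd_pow h6)) h2
            · exact h6
          rw [Int.gcd, Int.natAbs_natCast] at h3
          have h7 := Nat.dvd_gcd hpD hpo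
          rw [h3] at h7
          exact hp.one_lt.ne' (Nat.dvd_one.1 h7)
        rw [h0, mul_zero]
    rw [h1, mul_zero]

theorem t_KRM : S_KRM := fun D =>
  ⟨kron_mul D, kron_one D, kron_abs D, fun hD l hl => kron_sq D hD l hl⟩

theorem t_DIV : S_DIV := by
  intro δ hδ
  obtain ⟨C, hC, h⟩ := Pool.Agent.H510R2.divisor_bound δ hδ
  refine ⟨max 1 C, le_max_left _ _, fun n hn => (h n hn).trans ?_⟩
  exact mul_le_mul_of_nonneg_right (le_max_right _ _) (by positivity)

end Pool.Agent.Q148.TQ
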