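import Pool.Agent.Q148.TQ.KRM

/-!
Project TQ (helper255), jobs RED and TWO.
-/

set_option autoImplicit false

namespace Pool.Agent.Q148.TQ

open Finset Pool.Agent.Q255.TQ
open Pool.Agent.H306R2.RZ hiding TT
open Pool.Agent.Q122.FM (kron IsFund kr2)

noncomputable section

/-- coefficient for odd discriminants -/
def c1 (ε : ℤ) (s ρ : ℕ) : ℝ :=
  if (ε * (ρ : ℤ)) % 4 = 1 then (kr2 (ε * (ρ : ℤ)) : ℝ) ^ (s.factorization 2) * js ε (op s) else 0

/-- coefficient for even discriminants -/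
def c2 (ε : ℤ) (s l ρ : ℕ) : ℝ :=
  if ((ε * (ρ : ℤ)) % 4 = 2 ∨ (ε * (ρ : ℤ)) % 4 = 3) ∧ Odd s ∧ Odd l then js ε s else 0

open Classical in
/-- the term of `KK` -/
def F (ε : ℤ) (s l n : ℕ) : ℝ :=
  if IsFund (ε * (n : ℤ)) ∧ n.Coprime l then (kron (ε * (n : ℤ)) s : ℝ) else 0

open Classical in
/-- the term of the sums over squarefree numbers -/
def G (c : ℕ → ℝ) (s l m : ℕ) : ℝ :=
  if Squarefree m ∧ m.Coprime l then c (m % 8) * js m (op s) else 0

lemma KK_eq (ε : ℤ) (X s l : ℕ) : KK ε X s l = ∑ n ∈ Icc 1 X, F ε s l n := by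
  classical
  unfold KK Fs
  rw [Finset.filter_filter, Finset.sum_filter]
  apply Finset.sum_congr rfl
  intro n _
  unfold F
  by_cases h : IsFund (ε * (n : ℤ)) ∧ n.Coprime l
  · rw [if_pos h]
  · rw [if_neg h]

lemma cl8_mem {m : ℕ} (h : Squarefree m) : m % 8 ∈ cl8 := by
  have h4 : ¬ 4 ∣ m := by
    intro h4
    have := h 2 (by simpa using h4)
    rw [Nat.isUnit_iff] at this
    omega
  unfold cl8
  simp only [Finset.mem_insert, Finset.mem_singleton]
  omega

lemma G_sum (c : ℕ → ℝ) (s l Y : ℕ) :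
    ∑ m ∈ Icc 1 Y, G c s l m = ∑ ρ ∈ cl8, c ρ * TT ρ Y (op s) l := by
  classical
  unfold TT sqf
  have h1 : ∀ ρ ∈ cl8, c ρ * ∑ m ∈ ((Icc 1 Y).filter (fun m => Squarefree m)).filter
      (fun m => m % 8 = ρ ∧ m.Coprime l), js m (op s) =
      ∑ m ∈ Icc 1 Y, if Squarefree m ∧ m % 8 = ρ ∧ m.Coprime l then c ρ * js m (op s) else 0 := by
    intro ρ _
    rw [Finset.filter_filter, Finset.sum_filter, Finset.mul_sum]
    apply Finset.sum_congr rfl
    intro m _
    rw [mul_ite, mul_zero]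
  rw [Finset.sum_congr rfl h1, Finset.sum_comm]
  apply Finset.sum_congr rfl
  intro m _
  unfold G
  by_cases h : Squarefree m ∧ m.Coprime l
  · rw [if_pos h, Finset.sum_eq_single (m % 8)]
    · rw [if_pos ⟨h.1, rfl, h.2⟩]
    · intro ρ _ hρ
      rw [if_neg]
      rintro ⟨-, h2, -⟩
      exact hρ h2.symm
    · intro h2
      exact absurd (cl8_mem h.1) h2
  · rw [if_neg h]
    symm
    apply Finset.sum_eq_zero
    intro ρ _
    rw [if_neg]
    rintro ⟨h1, -, h3⟩
    exact h ⟨h1, h3⟩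

lemma sum_quot (k : ℕ) (hk : 1 ≤ k) (X : ℕ) (g : ℕ → ℝ) :
    ∑ n ∈ Icc 1 X, (if k ∣ n then g (n / k) else 0) = ∑ m ∈ Icc 1 (X / k), g m := by
  rw [← Finset.sum_filter]
  apply Finset.sum_bij' (fun n _ => n / k) (fun m _ => k * m)
  · intro n hn
    rw [mem_filter, mem_Icc] at hn
    rw [mem_Icc]
    exact ⟨Nat.div_pos (Nat.le_of_dvd (by omega) hn.2) (by omega), Nat.div_le_div_right hn.1.2⟩
  · intro m hm
    rw [mem_Icc] at hm
    rw [mem_filter, mem_Icc]
    refine ⟨⟨Nat.mul_pos (by omega) (by omega), ?_⟩, dvd_mul_right _ _⟩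
    calc k * m ≤ k * (X / k) := Nat.mul_le_mul_left _ hm.2
      _ ≤ X := Nat.mul_div_le X k
  · intro n hn
    rw [mem_filter] at hn
    exact Nat.mul_div_cancel' hn.2
  · intro m _
    exact Nat.mul_div_cancel_left m (by omega)
  · intro n _
    rfl

lemma op_eq {s : ℕ} (hs : Squarefree s) : s / 2 ^ (s.factorization 2) = op s := by
  unfold op
  by_cases h : Odd s
  · rw [if_pos h]
    have : s.factorization 2 = 0 := by
      apply Nat.factorization_eq_zero_of_not_dvd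
      intro h2
      rw [Nat.odd_iff] at h
      omega
    rw [this, pow_zero, Nat.div_one]
  · rw [if_neg h]
    have h2 : 2 ∣ s := by
      rw [Nat.not_odd_iff_even] at h
      exact h.two_dvd
    have h3 : s.factorization 2 = 1 := by
      have h4 := Squarefree.natFactorization_le_one 2 hs
      have h5 := Nat.Prime.factorization_pos_of_dvd Nat.prime_two hs.ne_zero h2
      omega
    rw [h3, pow_one]

lemma fac_even {s : ℕ} (hs : Squarefree s) (h : ¬ Odd s) : s.factorization 2 ≠ 0 := by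
  have h2 : 2 ∣ s := by
    rw [Nat.not_odd_iff_even] at h
    exact h.two_dvd
  have h5 := Nat.Prime.factorization_pos_of_dvd Nat.prime_two hs.ne_zero h2
  omega

lemma fac_odd {s : ℕ} (h : Odd s) : s.factorization 2 = 0 := by
  apply Nat.factorization_eq_zero_of_not_dvd
  intro h2
  rw [Nat.odd_iff] at h
  omega

lemma op_odd {s : ℕ} (h : Odd s) : op s = s := if_pos h

lemma op_ne {s : ℕ} (hs : Squarefree s) : op s ≠ 0 := by
  rw [← op_eq hs]
  exact odd_part_ne (Nat.pos_of_ne_zero hs.ne_zero)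

lemma kr2_congr {a b : ℤ} (h : a % 8 = b % 8) : kr2 a = kr2 b := by
  unfold kr2
  rw [h]

lemma sgn_mod {ε : ℤ} (hε : ε = 1 ∨ ε = -1) (n : ℕ) :
    (ε * ((n % 8 : ℕ) : ℤ)) % 8 = (ε * (n : ℤ)) % 8 := by
  rcases hε with rfl | rfl <;> omega

lemma sqf_sgn {ε : ℤ} (hε : ε = 1 ∨ ε = -1) (n : ℕ) :
    Squarefree (ε * (n : ℤ)) ↔ Squarefree n := by
  rw [← Int.squarefree_natAbs]
  have : (ε * (n : ℤ)).natAbs = n := by
    rcases hε with rfl | rfl <;> simp
  rw [this]

lemma F_odd {ε : ℤ} (hε : ε = 1 ∨ ε = -1) {s l n : ℕ} (hs : Squarefree s) (hn : Odd n) :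
    F ε s l n = G (c1 ε s) s l n := by
  have h8 := sgn_mod hε n
  have h4 : (ε * ((n % 8 : ℕ) : ℤ)) % 4 = (ε * (n : ℤ)) % 4 := by omega
  have hf : IsFund (ε * (n : ℤ)) ↔ (ε * (n : ℤ)) % 4 = 1 ∧ Squarefree n := by
    unfold IsFund
    rw [sqf_sgn hε]
    constructor
    · rintro (h | ⟨m, h1, -⟩)
      · exact h
      · exfalso
        rw [Nat.odd_iff] at hn
        rcases hε with rfl | rfl <;> omega
    · intro h
      exact Or.inl h
  unfold F G
  by_cases h1 : Squarefree n ∧ n.Coprime l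
  · rw [if_pos h1]
    unfold c1
    rw [h4]
    by_cases h2 : (ε * (n : ℤ)) % 4 = 1
    · rw [if_pos ⟨hf.2 ⟨h2, h1.1⟩, h1.2⟩, if_pos h2, kr2_congr h8]
      unfold kron js
      rw [op_eq hs, jacobiSym.mul_left]
      push_cast
      ring
    · rw [if_neg h2, zero_mul, if_neg]
      rintro ⟨h3, -⟩
      exact h2 (hf.1 h3).1
  · rw [if_neg h1, if_neg]
    rintro ⟨h3, h4⟩
    exact h1 ⟨(hf.1 h3).2, h4⟩

lemma jac_four {s : ℕ} (hs : Odd s) : jacobiSym 4 s = 1 := by
  have h : jacobiSym ((2 : ℤ) ^ 2) s = 1 := by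
    apply jacobiSym.sq_one'
    rw [Int.gcd_comm]
    have : Int.gcd (s : ℤ) 2 = Nat.gcd s 2 := rfl
    rw [this]
    exact Nat.Coprime.symm (Nat.coprime_two_left.2 hs)
  norm_num at h
  exact h

lemma F_even {ε : ℤ} (hε : ε = 1 ∨ ε = -1) {s l n : ℕ} (hs : Squarefree s) (hn : ¬ Odd n) :
    F ε s l n = if 4 ∣ n then G (c2 ε s l) s l (n / 4) else 0 := by
  rw [Nat.not_odd_iff_even, Nat.even_iff] at hn
  by_cases h4 : 4 ∣ n
  · rw [if_pos h4]
    obtain ⟨m, rfl⟩ := h4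
    rw [Nat.mul_div_cancel_left m (by norm_num)]
    have hf : IsFund (ε * ((4 * m : ℕ) : ℤ)) ↔
        ((ε * (m : ℤ)) % 4 = 2 ∨ (ε * (m : ℤ)) % 4 = 3) ∧ Squarefree m := by
      unfold IsFund
      constructor
      · rintro (h | ⟨k, h1, h2, h3⟩)
        · exfalso
          push_cast at h
          have := h.1
          rcases hε with rfl | rfl <;> omega
        · have hk : k = ε * (m : ℤ) := by
            push_cast at h1
            rcases hε with rfl | rfl <;> omega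
          subst hk
          exact ⟨h2, (sqf_sgn hε m).1 h3⟩
      · rintro ⟨h1, h2⟩
        exact Or.inr ⟨ε * (m : ℤ), by push_cast; ring, h1, (sqf_sgn hε m).2 h2⟩
    have h8 : (ε * ((m % 8 : ℕ) : ℤ)) % 4 = (ε * (m : ℤ)) % 4 := by
      have := sgn_mod hε m
      omega
    have hc : (4 * m).Coprime l ↔ Odd l ∧ m.Coprime l := by
      rw [Nat.coprime_mul_iff_left]
      have : Nat.Coprime 4 l ↔ Odd l := by
        have h5 : (4 : ℕ) = 2 ^ 2 := by norm_num
        rw [h5, Nat.coprime_pow_left_iff (by norm_num), Nat.coprime_two_left]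
      rw [this]
    unfold F G c2
    rw [h8]
    by_cases h1 : Squarefree m ∧ m.Coprime l
    · rw [if_pos h1]
      by_cases h2 : ((ε * (m : ℤ)) % 4 = 2 ∨ (ε * (m : ℤ)) % 4 = 3) ∧ Odd l
      · rw [if_pos ⟨hf.2 ⟨h2.1, h1.1⟩, hc.2 ⟨h2.2, h1.2⟩⟩]
        by_cases h3 : Odd s
        · rw [if_pos ⟨h2.1, h3, h2.2⟩]
          unfold kron js
          have h6 : s / 2 ^ (s.factorization 2) = s := by rw [fac_odd h3, pow_zero, Nat.div_one]
          rw [h6, fac_odd h3, pow_zero, one_mul, op_odd h3, jacobiSym.mul_left]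
          have h7 : ((4 * m : ℕ) : ℤ) = 4 * (m : ℤ) := by push_cast; ring
          rw [h7, jacobiSym.mul_left, jac_four h3, one_mul]
          push_cast
          ring
        · rw [if_neg (by rintro ⟨-, h, -⟩; exact h3 h), zero_mul]
          unfold kron
          have h6 : kr2 (ε * ((4 * m : ℕ) : ℤ)) = 0 := by
            apply kr2_even
            push_cast
            exact ⟨ε * (2 * m), by ring⟩
          rw [h6, zero_pow (fac_even hs h3), zero_mul]
          simp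
      · rw [if_neg, if_neg, zero_mul]
        · rintro ⟨h5, -, h6⟩
          exact h2 ⟨h5, h6⟩
        · rintro ⟨h5, h6⟩
          exact h2 ⟨(hf.1 h5).1, (hc.1 h6).1⟩
    · rw [if_neg h1, if_neg]
      rintro ⟨h5, h6⟩
      exact h1 ⟨(hf.1 h5).2, (hc.1 h6).2⟩
  · rw [if_neg h4]
    unfold F
    rw [if_neg]
    rintro ⟨h, -⟩
    rcases h with h | ⟨k, h1, -⟩
    · have := h.1
      rcases hε with rfl | rfl <;> omega
    · rcases hε with rfl | rfl <;> omega

lemma G_c1_even {ε : ℤ} (hε : ε = 1 ∨ ε = -1) {s l n : ℕ} (hn : ¬ Odd n) :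
    G (c1 ε s) s l n = 0 := by
  rw [Nat.not_odd_iff_even, Nat.even_iff] at hn
  unfold G c1
  have h8 := sgn_mod hε n
  have : ¬ (ε * ((n % 8 : ℕ) : ℤ)) % 4 = 1 := by
    rcases hε with rfl | rfl <;> omega
  rw [if_neg this, zero_mul, ite_self]

lemma F_eq {ε : ℤ} (hε : ε = 1 ∨ ε = -1) {s l : ℕ} (hs : Squarefree s) (n : ℕ) :
    F ε s l n = G (c1 ε s) s l n + if 4 ∣ n then G (c2 ε s l) s l (n / 4) else 0 := by
  by_cases hn : Odd n
  · rw [F_odd hε hs hn, if_neg, add_zero]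
    rw [Nat.odd_iff] at hn
    omega
  · rw [F_even hε hs hn, G_c1_even hε hn, zero_add]

lemma KK_split {ε : ℤ} (hε : ε = 1 ∨ ε = -1) {s : ℕ} (hs : Squarefree s) (X l : ℕ) :
    KK ε X s l = ∑ ρ ∈ cl8, c1 ε s ρ * TT ρ X (op s) l +
      ∑ ρ ∈ cl8, c2 ε s l ρ * TT ρ (X / 4) (op s) l := by
  rw [KK_eq, Finset.sum_congr rfl (fun n _ => F_eq hε hs n), Finset.sum_add_distrib,
    sum_quot 4 (by norm_num), G_sum, G_sum]

lemma js_abs (k : ℤ) (n : ℕ) : |js k n| ≤ 1 := by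
  unfold js
  rcases jacobiSym.trichotomy k n with h | h | h <;> simp [h]

lemma kr2_abs (D : ℤ) (k : ℕ) : |(kr2 D : ℝ) ^ k| ≤ 1 := by
  have := kr2_pow_abs D k
  exact_mod_cast this

lemma c1_abs (ε : ℤ) (s ρ : ℕ) : |c1 ε s ρ| ≤ 1 := by
  unfold c1
  split_ifs
  · rw [abs_mul]
    exact mul_le_one₀ (kr2_abs _ _) (abs_nonneg _) (js_abs _ _)
  · simp

lemma c2_abs (ε : ℤ) (s l ρ : ℕ) : |c2 ε s l ρ| ≤ 1 := by
  unfold c2
  split_ifs
  · exact js_abs _ _
  · simp

theorem t_RED : S_RED := by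
  intro ε hε X s l hs _
  rw [KK_split hε hs, Finset.sum_add_distrib]
  refine (abs_add_le _ _).trans (add_le_add ?_ ?_)
  · refine (Finset.abs_sum_le_sum_abs _ _).trans (Finset.sum_le_sum fun ρ _ => ?_)
    rw [abs_mul]
    exact mul_le_of_le_one_left (abs_nonneg _) (c1_abs _ _ _)
  · refine (Finset.abs_sum_le_sum_abs _ _).trans (Finset.sum_le_sum fun ρ _ => ?_)
    rw [abs_mul]
    exact mul_le_of_le_one_left (abs_nonneg _) (c2_abs _ _ _ _)

end

end Pool.Agent.Q148.TQ
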