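import Pool.Agent.Q148.TQ.RED

/-!
Project TQ (helper255), job TWO.
-/

set_option autoImplicit false

namespace Pool.Agent.Q148.TQ

open Finset Pool.Agent.Q255.TQ
open Pool.Agent.H306R2.RZ hiding TT
open Pool.Agent.Q122.FM (kron IsFund kr2)

noncomputable section

/-- `∑_{a² | n} μ(a)` is the indicator of the squarefree numbers -/
lemma mu_sqf {n N : ℕ} (hn : n ≠ 0) (hN : n < (N + 1) ^ 2) :
    ∑ d ∈ (Icc 1 N).filter (fun d => d ^ 2 ∣ n), ((ArithmeticFunction.moebius d : ℤ) : ℝ) =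
      if Squarefree n then 1 else 0 := by
  classical
  obtain ⟨s, b, h1, h2⟩ := Nat.sq_mul_squarefree n
  have hb : b ≠ 0 := by
    rintro rfl
    apply hn
    rw [← h1]
    ring
  have hs : s ≠ 0 := h2.ne_zero
  have h3 : ∀ d : ℕ, d ^ 2 ∣ n ↔ d ∣ b := by
    intro d
    constructor
    · intro h
      rw [← h1] at h
      by_cases hd : d = 0
      · subst hd
        rw [zero_pow two_ne_zero, zero_dvd_iff] at h
        exact absurd h (mul_ne_zero (pow_ne_zero 2 hb) hs)
      rw [← Nat.factorization_le_iff_dvd hd hb]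
      rw [← Nat.factorization_le_iff_dvd (pow_ne_zero 2 hd) (mul_ne_zero (pow_ne_zero 2 hb) hs),
        Nat.factorization_mul (pow_ne_zero 2 hb) hs, Nat.factorization_pow,
        Nat.factorization_pow] at h
      intro p
      have h4 := h p
      have h5 := (Nat.squarefree_iff_factorization_le_one hs).1 h2 p
      simp only [Finsupp.coe_smul, Finsupp.coe_add, Pi.smul_apply, Pi.add_apply,
        smul_eq_mul] at h4
      omega
    · intro h
      rw [← h1]
      exact (pow_dvd_pow_of_dvd h 2).mul_right s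
  have h4 : (Icc 1 N).filter (fun d => d ^ 2 ∣ n) = b.divisors := by
    ext d
    rw [mem_filter, mem_Icc, h3, Nat.mem_divisors]
    constructor
    · rintro ⟨-, h⟩
      exact ⟨h, hb⟩
    · rintro ⟨h, -⟩
      refine ⟨⟨Nat.pos_of_dvd_of_pos h (Nat.pos_of_ne_zero hb), ?_⟩, h⟩
      have h5 := Nat.le_of_dvd (Nat.pos_of_ne_zero hn) ((h3 d).2 h)
      have h6 : d ^ 2 < (N + 1) ^ 2 := lt_of_le_of_lt h5 hN
      have h7 := lt_of_pow_lt_pow_left₀ 2 (by omega) h6
      omega
  have h5 : ∑ d ∈ b.divisors, (ArithmeticFunction.moebius d : ℤ) = if b = 1 then 1 else 0 := by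
    have := ArithmeticFunction.coe_moebius_mul_coe_zeta (R := ℤ)
    have h6 := DFunLike.congr_fun this b
    rw [ArithmeticFunction.coe_mul_zeta_apply, ArithmeticFunction.one_apply] at h6
    simpa using h6
  rw [h4]
  have h6 : ∑ d ∈ b.divisors, ((ArithmeticFunction.moebius d : ℤ) : ℝ) =
      ((∑ d ∈ b.divisors, (ArithmeticFunction.moebius d : ℤ) : ℤ) : ℝ) := by push_cast; rfl
  rw [h6, h5]
  have h7 : Squarefree n ↔ b = 1 := by
    constructor
    · intro h
      have := h b (by rw [← h1, pow_two]; exact dvd_mul_right _ _)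
      exact Nat.isUnit_iff.1 this
    · rintro rfl
      rw [← h1, one_pow, one_mul]
      exact h2
  by_cases hb1 : b = 1
  · rw [if_pos hb1, if_pos (h7.2 hb1)]; simp
  · rw [if_neg hb1, if_neg (fun h => hb1 (h7.1 h))]; simp

/-- `∑_{e | l, e | m} μ(e)` is the indicator of the numbers coprime to `l` -/
lemma mu_cop {l m : ℕ} (hl : 1 ≤ l) :
    ∑ e ∈ l.divisors.filter (fun e => e ∣ m), ((ArithmeticFunction.moebius e : ℤ) : ℝ) =
      if m.Coprime l then 1 else 0 := by
  classical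
  have h4 : l.divisors.filter (fun e => e ∣ m) = (Nat.gcd m l).divisors := by
    ext d
    rw [mem_filter, Nat.mem_divisors, Nat.mem_divisors, Nat.dvd_gcd_iff]
    constructor
    · rintro ⟨⟨h1, h2⟩, h3⟩
      exact ⟨⟨h3, h1⟩, fun h => h2 (Nat.eq_zero_of_gcd_eq_zero_right h)⟩
    · rintro ⟨⟨h1, h2⟩, -⟩
      exact ⟨⟨h2, by omega⟩, h1⟩
  have h5 : ∑ d ∈ (Nat.gcd m l).divisors, (ArithmeticFunction.moebius d : ℤ) =
      if Nat.gcd m l = 1 then 1 else 0 := by
    have := ArithmeticFunction.coe_moebius_mul_coe_zeta (R := ℤ)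
    have h6 := DFunLike.congr_fun this (Nat.gcd m l)
    rw [ArithmeticFunction.coe_mul_zeta_apply, ArithmeticFunction.one_apply] at h6
    simpa using h6
  rw [h4]
  have h6 : ∑ d ∈ (Nat.gcd m l).divisors, ((ArithmeticFunction.moebius d : ℤ) : ℝ) =
      ((∑ d ∈ (Nat.gcd m l).divisors, (ArithmeticFunction.moebius d : ℤ) : ℤ) : ℝ) := by
    push_cast; rfl
  rw [h6, h5]
  by_cases hb1 : Nat.gcd m l = 1
  · rw [if_pos hb1, if_pos hb1]; simp
  · rw [if_neg hb1, if_neg hb1]; simp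

/-! ### sums of `kr2` -/

/-- finite table -/
def T (c r : ℕ) : ℤ := ∑ k ∈ Icc 1 r, kr2 ((c : ℤ) * (k : ℤ))

instance (D : ℤ) : Decidable (D % 8 = 1) := inferInstance

lemma T_table : ∀ c ∈ ({1, 3, 5, 7} : Finset ℕ), ∀ r ∈ range 8,
    T c ((r + 1) % 8) = T c r + kr2 ((c : ℤ) * ((r + 1 : ℕ) : ℤ)) ∧ |T c r| ≤ 1 := by
  unfold T kr2
  decide

lemma T_mod (c : ℕ) (hc : c ∈ ({1, 3, 5, 7} : Finset ℕ)) (K : ℕ) : T c K = T c (K % 8) := by
  induction K with
  | zero => rfl
  | succ K ih =>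
    have h1 : T c (K + 1) = T c K + kr2 ((c : ℤ) * ((K + 1 : ℕ) : ℤ)) := by
      unfold T
      rw [Finset.sum_Icc_succ_top (by omega)]
    have h2 := (T_table c hc (K % 8) (by rw [mem_range]; omega)).1
    have h3 : (K % 8 + 1) % 8 = (K + 1) % 8 := by omega
    rw [h1, ih]
    rw [h3] at h2
    rw [h2]
    congr 1
    apply kr2_congr
    rw [Int.mul_emod, Int.mul_emod (c : ℤ) ((K % 8 + 1 : ℕ) : ℤ)]
    congr 2
    omega

lemma T_abs (c : ℕ) (hc : c ∈ ({1, 3, 5, 7} : Finset ℕ)) (K : ℕ) : |T c K| ≤ 1 := by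
  rw [T_mod c hc K]
  exact (T_table c hc (K % 8) (by rw [mem_range]; omega)).2

lemma psi_sum {ε : ℤ} (hε : ε = 1 ∨ ε = -1) (e K : ℕ) :
    |∑ k ∈ Icc 1 K, (kr2 (ε * ((e * k : ℕ) : ℤ)) : ℝ)| ≤ 1 := by
  have h0 : ∑ k ∈ Icc 1 K, (kr2 (ε * ((e * k : ℕ) : ℤ)) : ℝ) =
      ((∑ k ∈ Icc 1 K, kr2 (ε * ((e * k : ℕ) : ℤ)) : ℤ) : ℝ) := by push_cast; rfl
  rw [h0]
  by_cases he : Odd e
  · obtain ⟨c, hc, hce⟩ : ∃ c ∈ ({1, 3, 5, 7} : Finset ℕ), (c : ℤ) % 8 = (ε * (e : ℤ)) % 8 := by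
      refine ⟨((ε * (e : ℤ)) % 8).toNat, ?_, ?_⟩
      · rw [Nat.odd_iff] at he
        simp only [Finset.mem_insert, Finset.mem_singleton]
        rcases hε with rfl | rfl <;> omega
      · rcases hε with rfl | rfl <;> omega
    have h1 : ∑ k ∈ Icc 1 K, kr2 (ε * ((e * k : ℕ) : ℤ)) = T c K := by
      unfold T
      apply Finset.sum_congr rfl
      intro k _
      apply kr2_congr
      push_cast
      rw [← mul_assoc, Int.mul_emod, ← hce, ← Int.mul_emod]
    rw [h1]
    have := T_abs c hc K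
    exact_mod_cast this
  · have h1 : ∑ k ∈ Icc 1 K, kr2 (ε * ((e * k : ℕ) : ℤ)) = 0 := by
      apply Finset.sum_eq_zero
      intro k _
      apply kr2_even
      rw [Nat.not_odd_iff_even] at he
      obtain ⟨j, rfl⟩ := he
      push_cast
      exact ⟨ε * (j * k), by ring⟩
    rw [h1]
    simp

lemma mu_abs (n : ℕ) : |((ArithmeticFunction.moebius n : ℤ) : ℝ)| ≤ 1 := by
  have := ArithmeticFunction.abs_moebius_le_one (n := n)
  exact_mod_cast this

lemma sum_quot' (k : ℕ) (hk : 1 ≤ k) (X : ℕ) (g : ℕ → ℝ) :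
    ∑ n ∈ (Icc 1 X).filter (fun n => k ∣ n), g n = ∑ m ∈ Icc 1 (X / k), g (k * m) := by
  rw [← sum_quot k hk X (fun m => g (k * m)), Finset.sum_filter]
  apply Finset.sum_congr rfl
  intro n _
  by_cases h : k ∣ n
  · rw [if_pos h, if_pos h, Nat.mul_div_cancel' h]
  · rw [if_neg h, if_neg h]

/-- sum over the numbers coprime to `l` -/
lemma cop_sum {ε : ℤ} (hε : ε = 1 ∨ ε = -1) (l Z : ℕ) (hl : 1 ≤ l) :
    |∑ m ∈ (Icc 1 Z).filter (fun m => m.Coprime l), (kr2 (ε * (m : ℤ)) : ℝ)| ≤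
      l.divisors.card := by
  have h1 : ∑ m ∈ (Icc 1 Z).filter (fun m => m.Coprime l), (kr2 (ε * (m : ℤ)) : ℝ) =
      ∑ e ∈ l.divisors, ((ArithmeticFunction.moebius e : ℤ) : ℝ) *
        ∑ k ∈ Icc 1 (Z / e), (kr2 (ε * ((e * k : ℕ) : ℤ)) : ℝ) := by
    have h2 : ∀ e ∈ l.divisors, ((ArithmeticFunction.moebius e : ℤ) : ℝ) *
        ∑ k ∈ Icc 1 (Z / e), (kr2 (ε * ((e * k : ℕ) : ℤ)) : ℝ) =
        ∑ m ∈ Icc 1 Z, if e ∣ m then
          ((ArithmeticFunction.moebius e : ℤ) : ℝ) * (kr2 (ε * (m : ℤ)) : ℝ) else 0 := by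
      intro e he
      have he1 : 1 ≤ e := Nat.pos_of_mem_divisors he
      rw [← sum_quot' e he1 Z (fun m => (kr2 (ε * (m : ℤ)) : ℝ)), Finset.sum_filter,
        Finset.mul_sum]
      apply Finset.sum_congr rfl
      intro m _
      rw [mul_ite, mul_zero]
    rw [Finset.sum_congr rfl h2, Finset.sum_comm, Finset.sum_filter]
    apply Finset.sum_congr rfl
    intro m _
    rw [← Finset.sum_filter, ← Finset.sum_mul, mu_cop hl]
    split_ifs <;> simp
  rw [h1]
  refine (Finset.abs_sum_le_sum_abs _ _).trans ?_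
  calc ∑ e ∈ l.divisors, |((ArithmeticFunction.moebius e : ℤ) : ℝ) *
        ∑ k ∈ Icc 1 (Z / e), (kr2 (ε * ((e * k : ℕ) : ℤ)) : ℝ)| ≤ ∑ e ∈ l.divisors, (1 : ℝ) := by
        apply Finset.sum_le_sum
        intro e _
        rw [abs_mul]
        exact mul_le_one₀ (mu_abs e) (abs_nonneg _) (psi_sum hε e _)
    _ = l.divisors.card := by simp

lemma op_two : op 2 = 1 := by
  unfold op
  rw [if_neg (by decide)]

lemma KK_two {ε : ℤ} (hε : ε = 1 ∨ ε = -1) (X l : ℕ) :
    KK ε X 2 l = ∑ n ∈ (Icc 1 X).filter (fun n => n.Coprime l),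
      (kr2 (ε * (n : ℤ)) : ℝ) * if Squarefree n then 1 else 0 := by
  classical
  have hs : Squarefree 2 := Nat.prime_two.prime.squarefree
  rw [KK_eq, Finset.sum_filter]
  apply Finset.sum_congr rfl
  intro n _
  rw [F_eq hε hs]
  have h0 : G (c2 ε 2 l) 2 l (n / 4) = 0 := by
    have h00 : ∀ ρ, c2 ε 2 l ρ = 0 := by
      intro ρ
      unfold c2
      rw [if_neg]
      rintro ⟨-, h, -⟩
      revert h
      decide
    unfold G
    rw [h00, zero_mul, ite_self]
  rw [h0, ite_self, add_zero]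
  unfold G
  by_cases h : n.Coprime l
  · rw [if_pos h]
    by_cases h1 : Squarefree n
    · rw [if_pos ⟨h1, h⟩, if_pos h1, mul_one, op_two]
      unfold c1 js
      rw [op_two, jacobiSym.one_right, jacobiSym.one_right]
      have hf : (2 : ℕ).factorization 2 = 1 := Nat.Prime.factorization_self Nat.prime_two
      rw [hf, pow_one, kr2_congr (sgn_mod hε n)]
      have h8 := sgn_mod hε n
      by_cases h4 : (ε * ((n % 8 : ℕ) : ℤ)) % 4 = 1
      · rw [if_pos h4]
        push_cast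
        ring
      · rw [if_neg h4]
        have : kr2 (ε * (n : ℤ)) = 0 := by
          unfold kr2
          rw [if_neg (by omega), if_neg (by omega)]
        rw [this]
        simp
    · rw [if_neg (fun h2 => h1 h2.1), if_neg h1, mul_zero]
  · rw [if_neg h, if_neg (fun h2 => h h2.2)]

theorem t_TWO : S_TWO := by
  classical
  intro ε hε X l hl
  set A := Nat.sqrt X with hA
  have h1 : KK ε X 2 l = ∑ a ∈ Icc 1 A, ((ArithmeticFunction.moebius a : ℤ) : ℝ) *
      ∑ m ∈ Icc 1 (X / a ^ 2), if (a ^ 2 * m).Coprime l then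
        (kr2 (ε * ((a ^ 2 * m : ℕ) : ℤ)) : ℝ) else 0 := by
    have h2 : ∀ a ∈ Icc 1 A, ((ArithmeticFunction.moebius a : ℤ) : ℝ) *
      (∑ m ∈ Icc 1 (X / a ^ 2), if (a ^ 2 * m).Coprime l then
        (kr2 (ε * ((a ^ 2 * m : ℕ) : ℤ)) : ℝ) else 0) =
        ∑ n ∈ Icc 1 X, if a ^ 2 ∣ n then ((ArithmeticFunction.moebius a : ℤ) : ℝ) *
          (if n.Coprime l then (kr2 (ε * (n : ℤ)) : ℝ) else 0) else 0 := by
      intro a ha
      rw [mem_Icc] at ha
      rw [← sum_quot' (a ^ 2) (Nat.pow_pos (by omega)) X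
        (fun n => if n.Coprime l then (kr2 (ε * (n : ℤ)) : ℝ) else 0), Finset.sum_filter,
        Finset.mul_sum]
      apply Finset.sum_congr rfl
      intro m _
      rw [mul_ite, mul_zero]
    rw [Finset.sum_congr rfl h2, Finset.sum_comm, KK_two hε, Finset.sum_filter]
    apply Finset.sum_congr rfl
    intro n hn
    rw [mem_Icc] at hn
    rw [← Finset.sum_filter, ← Finset.sum_mul, mu_sqf (by omega)]
    · split_ifs <;> simp
    · have := Nat.lt_succ_sqrt X
      rw [hA, pow_two]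
      have h3 : Nat.succ (Nat.sqrt X) = Nat.sqrt X + 1 := rfl
      rw [h3] at this
      omega
  have h3 : ∀ a ∈ Icc 1 A, |((ArithmeticFunction.moebius a : ℤ) : ℝ) *
      ∑ m ∈ Icc 1 (X / a ^ 2), if (a ^ 2 * m).Coprime l then
        (kr2 (ε * ((a ^ 2 * m : ℕ) : ℤ)) : ℝ) else 0| ≤ l.divisors.card := by
    intro a _
    rw [abs_mul]
    have h4 : |∑ m ∈ Icc 1 (X / a ^ 2), (if (a ^ 2 * m).Coprime l then
        (kr2 (ε * ((a ^ 2 * m : ℕ) : ℤ)) : ℝ) else 0)| ≤ l.divisors.card := by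
      by_cases hc : a.Coprime l ∧ Odd a
      · have h5 : ∑ m ∈ Icc 1 (X / a ^ 2), (if (a ^ 2 * m).Coprime l then
            (kr2 (ε * ((a ^ 2 * m : ℕ) : ℤ)) : ℝ) else 0) =
            ∑ m ∈ (Icc 1 (X / a ^ 2)).filter (fun m => m.Coprime l),
              (kr2 (ε * (m : ℤ)) : ℝ) := by
          rw [Finset.sum_filter]
          apply Finset.sum_congr rfl
          intro m _
          have h6 : (a ^ 2 * m).Coprime l ↔ m.Coprime l := by
            rw [Nat.coprime_mul_iff_left]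
            exact ⟨fun h => h.2, fun h => ⟨Nat.Coprime.pow_left 2 hc.1, h⟩⟩
          have h7 : kr2 (ε * ((a ^ 2 * m : ℕ) : ℤ)) = kr2 (ε * (m : ℤ)) := by
            apply kr2_congr
            have h8 : ((a : ℤ) ^ 2) % 8 = 1 := by
              have ho := hc.2
              rw [Nat.odd_iff] at ho
              have h10 : (a : ℤ) % 8 = 1 ∨ (a : ℤ) % 8 = 3 ∨ (a : ℤ) % 8 = 5 ∨
                  (a : ℤ) % 8 = 7 := by omega
              rw [pow_two, Int.mul_emod]
              rcases h10 with h | h | h | h <;> rw [h] <;> norm_num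
            push_cast
            have h9 : ε * ((a : ℤ) ^ 2 * m) = (a : ℤ) ^ 2 * (ε * m) := by ring
            rw [h9, Int.mul_emod, h8, one_mul, Int.emod_emod]
          rw [h7]
          by_cases h8 : m.Coprime l
          · rw [if_pos h8, if_pos (h6.2 h8)]
          · rw [if_neg h8, if_neg (fun h => h8 (h6.1 h))]
        rw [h5]
        exact cop_sum hε l _ hl
      · have h5 : ∑ m ∈ Icc 1 (X / a ^ 2), (if (a ^ 2 * m).Coprime l then
            (kr2 (ε * ((a ^ 2 * m : ℕ) : ℤ)) : ℝ) else 0) = 0 := by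
          apply Finset.sum_eq_zero
          intro m _
          by_cases h6 : (a ^ 2 * m).Coprime l
          · rw [if_pos h6]
            have h7 : a.Coprime l := by
              rw [Nat.coprime_mul_iff_left] at h6
              exact (Nat.coprime_pow_left_iff (by norm_num) a l).1 h6.1
            have h8 : ¬ Odd a := fun h => hc ⟨h7, h⟩
            have h9 : kr2 (ε * ((a ^ 2 * m : ℕ) : ℤ)) = 0 := by
              apply kr2_even
              rw [Nat.not_odd_iff_even] at h8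
              obtain ⟨j, rfl⟩ := h8
              push_cast
              exact ⟨ε * (2 * j ^ 2 * m), by ring⟩
            rw [h9]
            simp
          · rw [if_neg h6]
        rw [h5, abs_zero]
        positivity
    calc _ ≤ 1 * (l.divisors.card : ℝ) :=
          mul_le_mul (mu_abs a) h4 (abs_nonneg _) zero_le_one
      _ = l.divisors.card := one_mul _
  rw [h1]
  refine (Finset.abs_sum_le_sum_abs _ _).trans ((Finset.sum_le_sum h3).trans ?_)
  rw [Finset.sum_const, Nat.card_Icc, nsmul_eq_mul]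
  have h5 : ((A + 1 - 1 : ℕ) : ℝ) ≤ Real.sqrt X := by
    rw [Nat.add_sub_cancel, hA]
    exact Real.nat_sqrt_le_real_sqrt
  have h6 : (0 : ℝ) ≤ l.divisors.card := by positivity
  nlinarith [Real.sqrt_nonneg (X : ℝ), mul_le_mul_of_nonneg_right h5 h6,
    mul_nonneg h6 (Real.sqrt_nonneg (X : ℝ))]

end

end Pool.Agent.Q148.TQ
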