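import Pool.Agent.Q148.TQ.KRM
import Pool.Agent.Q275.FM.LMI
import Pool.Agent.Q275.FM.IGF

/-!
Project TQ (helper255), jobs VP and TAL.
-/

set_option autoImplicit false

namespace Pool.Agent.Q148.TQ

open Finset MeasureTheory Pool.Agent.Q255.TQ
open Pool.Agent.H306R2.RZ hiding TT
open Pool.Agent.Q122.FM (kron IsFund kr2 IG)

noncomputable section

/-- the integrand -/
def fi (a : ℕ) (t : ℝ) : ℝ := t ^ ((a : ℝ) / 2 - 3 / 4) * Real.exp (-(Real.pi * t))

lemma fi_int (a : ℕ) : IntegrableOn (fi a) (Set.Ioi 0) := by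
  have h := integrableOn_rpow_mul_exp_neg_mul_rpow (s := (a : ℝ) / 2 - 3 / 4) (p := 1)
    (b := Real.pi) (by
      have : (0 : ℝ) ≤ a := Nat.cast_nonneg a
      linarith) one_pos Real.pi_pos
  refine h.congr_fun ?_ measurableSet_Ioi
  intro t _
  simp only [Real.rpow_one, neg_mul, fi]

lemma fi_int' (a : ℕ) {v : ℝ} (hv : 0 ≤ v) : IntegrableOn (fi a) (Set.Ioi v) :=
  (fi_int a).mono_set (Set.Ioi_subset_Ioi hv)

lemma fi_pos (a : ℕ) {t : ℝ} (ht : 0 < t) : 0 < fi a t := by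
  unfold fi
  positivity

lemma IG_eq (a : ℕ) (v : ℝ) : IG a v = ∫ t in Set.Ioi v, fi a t := rfl

lemma IG_pos (a : ℕ) {v : ℝ} (hv : 0 ≤ v) : 0 < IG a v := by
  rw [IG_eq, setIntegral_pos_iff_support_of_nonneg_ae]
  · have h : Set.Ioi v ⊆ Function.support (fi a) ∩ Set.Ioi v := by
      intro t ht
      exact ⟨(fi_pos a (lt_of_le_of_lt hv ht)).ne', ht⟩
    refine lt_of_lt_of_le ?_ (measure_mono h)
    rw [Real.volume_Ioi]
    exact ENNReal.zero_lt_top
  · rw [Filter.EventuallyLE, ae_restrict_iff' measurableSet_Ioi]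
    exact Filter.Eventually.of_forall fun t ht => (fi_pos a (lt_of_le_of_lt hv ht)).le
  · exact fi_int' a hv

lemma IG_anti (a : ℕ) {u v : ℝ} (hu : 0 ≤ u) (huv : u ≤ v) : IG a v ≤ IG a u := by
  rw [IG_eq, IG_eq]
  apply setIntegral_mono_set (fi_int' a hu)
  · rw [Filter.EventuallyLE, ae_restrict_iff' measurableSet_Ioi]
    exact Filter.Eventually.of_forall fun t ht => (fi_pos a (lt_of_le_of_lt hu ht)).le
  · exact (Set.Ioi_subset_Ioi huv).eventuallyLE

lemma IG_zero {a : ℕ} (ha : a = 0 ∨ a = 1) : IG a 0 = gm (1 / 2 + (a : ℝ)) :=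
  (Pool.Agent.Q275.FM.t_LMI a ha).2.2.1

lemma gm_pos {a : ℕ} (ha : a = 0 ∨ a = 1) : 0 < gm (1 / 2 + (a : ℝ)) := by
  rw [← IG_zero ha]
  exact IG_pos a le_rfl

/-- constant of the exponential bound -/
def KI (a : ℕ) : ℝ := ∫ t in Set.Ioi (0 : ℝ),
  t ^ ((a : ℝ) / 2 - 3 / 4) * Real.exp (-((Real.pi - 1) * t))

lemma KI_int (a : ℕ) : IntegrableOn (fun t : ℝ => t ^ ((a : ℝ) / 2 - 3 / 4) *
    Real.exp (-((Real.pi - 1) * t))) (Set.Ioi 0) := by
  have h := integrableOn_rpow_mul_exp_neg_mul_rpow (s := (a : ℝ) / 2 - 3 / 4) (p := 1)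
    (b := Real.pi - 1) (by
      have : (0 : ℝ) ≤ a := Nat.cast_nonneg a
      linarith) one_pos (by linarith [Real.pi_gt_three])
  refine h.congr_fun ?_ measurableSet_Ioi
  intro t _
  simp only [Real.rpow_one, neg_mul]

lemma IG_exp (a : ℕ) {v : ℝ} (hv : 0 ≤ v) : IG a v ≤ KI a * Real.exp (-v) := by
  have hK := KI_int a
  have h1 : IG a v ≤ ∫ t in Set.Ioi v, Real.exp (-v) * (t ^ ((a : ℝ) / 2 - 3 / 4) *
      Real.exp (-((Real.pi - 1) * t))) := by
    rw [IG_eq]
    apply setIntegral_mono_on (fi_int' a hv)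
      ((hK.mono_set (Set.Ioi_subset_Ioi hv)).const_mul _) measurableSet_Ioi
    intro t ht
    have ht0 : 0 < t := lt_of_le_of_lt hv ht
    unfold fi
    have h2 : Real.exp (-(Real.pi * t)) = Real.exp (-t) * Real.exp (-((Real.pi - 1) * t)) := by
      rw [← Real.exp_add]
      congr 1
      ring
    have h3 : Real.exp (-t) ≤ Real.exp (-v) := Real.exp_le_exp.2 (by
      have : v < t := ht
      linarith)
    have h4 : 0 ≤ t ^ ((a : ℝ) / 2 - 3 / 4) * Real.exp (-((Real.pi - 1) * t)) := by positivity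
    rw [h2]
    calc t ^ ((a : ℝ) / 2 - 3 / 4) * (Real.exp (-t) * Real.exp (-((Real.pi - 1) * t)))
        = Real.exp (-t) * (t ^ ((a : ℝ) / 2 - 3 / 4) * Real.exp (-((Real.pi - 1) * t))) := by ring
      _ ≤ _ := mul_le_mul_of_nonneg_right h3 h4
  refine h1.trans ?_
  rw [integral_const_mul, mul_comm]
  apply mul_le_mul_of_nonneg_right _ (Real.exp_pos _).le
  unfold KI
  apply setIntegral_mono_set hK
  · rw [Filter.EventuallyLE, ae_restrict_iff' measurableSet_Ioi]
    refine Filter.Eventually.of_forall fun t ht => ?_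
    have : (0 : ℝ) < t := ht
    simp only [Pi.zero_apply]
    positivity
  · exact (Set.Ioi_subset_Ioi hv).eventuallyLE

lemma KI_nonneg (a : ℕ) : 0 ≤ KI a := by
  have h1 := IG_exp a (le_refl (0 : ℝ))
  have h2 := IG_pos a (le_refl (0 : ℝ))
  rw [neg_zero, Real.exp_zero, mul_one] at h1
  linarith

lemma IG_diff {a : ℕ} (ha : a = 0 ∨ a = 1) {u v : ℝ} (hu : 0 < u) (huv : u ≤ v) :
    IG a u - IG a v ≤ (v - u) * fi a u := by
  have h1 : IG a u = (∫ t in Set.Ioc u v, fi a t) + IG a v := by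
    rw [IG_eq, IG_eq, ← Set.Ioc_union_Ioi_eq_Ioi huv]
    apply setIntegral_union (Set.Ioc_disjoint_Ioi le_rfl) measurableSet_Ioi
    · exact (fi_int' a hu.le).mono_set Set.Ioc_subset_Ioi_self
    · exact fi_int' a (hu.le.trans huv)
  rw [h1, add_sub_cancel_right]
  have h2 : ∫ t in Set.Ioc u v, fi a t ≤ ∫ t in Set.Ioc u v, fi a u := by
    apply setIntegral_mono_on
    · exact (fi_int' a hu.le).mono_set Set.Ioc_subset_Ioi_self
    · exact integrableOn_const (by rw [Real.volume_Ioc]; exact ENNReal.ofReal_ne_top)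
    · exact measurableSet_Ioc
    · intro t ht
      unfold fi
      have h3 : t ^ ((a : ℝ) / 2 - 3 / 4) ≤ u ^ ((a : ℝ) / 2 - 3 / 4) := by
        apply Real.rpow_le_rpow_of_nonpos hu ht.1.le
        rcases ha with rfl | rfl <;> norm_num
      have h4 : Real.exp (-(Real.pi * t)) ≤ Real.exp (-(Real.pi * u)) := by
        apply Real.exp_le_exp.2
        have := mul_le_mul_of_nonneg_left ht.1.le Real.pi_pos.le
        linarith
      exact mul_le_mul h3 h4 (Real.exp_pos _).le (Real.rpow_nonneg hu.le _)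
  refine h2.trans (le_of_eq ?_)
  rw [setIntegral_const, smul_eq_mul, Real.volume_real_Ioc_of_le huv]

lemma sup_bd {a : ℕ} (ha : a = 0 ∨ a = 1) {u : ℝ} (hu : 0 < u) : u * fi a u ≤ 1 := by
  have h1 : u * fi a u = u ^ ((a : ℝ) / 2 + 1 / 4) * Real.exp (-(Real.pi * u)) := by
    unfold fi
    rw [← mul_assoc]
    congr 1
    nth_rewrite 1 [← Real.rpow_one u]
    rw [← Real.rpow_add hu]
    congr 1
    ring
  rw [h1]
  have h2 : Real.exp (-(Real.pi * u)) ≤ Real.exp (-u) := Real.exp_le_exp.2 (by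
    nlinarith [Real.pi_gt_three])
  have h3 : u ^ ((a : ℝ) / 2 + 1 / 4) ≤ Real.exp u := by
    by_cases h : u ≤ 1
    · have : u ^ ((a : ℝ) / 2 + 1 / 4) ≤ 1 := Real.rpow_le_one hu.le h (by positivity)
      exact this.trans (Real.one_le_exp hu.le)
    · push Not at h
      calc u ^ ((a : ℝ) / 2 + 1 / 4) ≤ u ^ (1 : ℝ) := by
            apply Real.rpow_le_rpow_of_exponent_le h.le
            rcases ha with rfl | rfl <;> norm_num
        _ = u := Real.rpow_one u
        _ ≤ Real.exp u := by linarith [Real.add_one_le_exp u]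
  calc u ^ ((a : ℝ) / 2 + 1 / 4) * Real.exp (-(Real.pi * u)) ≤ Real.exp u * Real.exp (-u) :=
        mul_le_mul h3 h2 (Real.exp_pos _).le (Real.exp_pos _).le
    _ = 1 := by rw [← Real.exp_add, add_neg_cancel, Real.exp_zero]

theorem t_VP : S_VP := by
  intro a ha
  have hg := gm_pos ha
  have hc : 0 < 2 / gm (1 / 2 + (a : ℝ)) := div_pos two_pos hg
  refine ⟨fun x hx => ⟨?_, ?_⟩, fun x y hx hxy => ?_, ?_⟩
  · exact mul_pos hc (IG_pos a (sq_nonneg x))
  · unfold V
    have h1 := IG_anti a le_rfl (sq_nonneg x)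
    rw [IG_zero ha] at h1
    calc 2 / gm (1 / 2 + (a : ℝ)) * IG a (x ^ 2)
        ≤ 2 / gm (1 / 2 + (a : ℝ)) * gm (1 / 2 + (a : ℝ)) :=
          mul_le_mul_of_nonneg_left h1 hc.le
      _ = 2 := div_mul_cancel₀ 2 hg.ne'
  · unfold V
    apply mul_le_mul_of_nonneg_left _ hc.le
    apply IG_anti a (sq_nonneg x)
    exact pow_le_pow_left₀ hx.le hxy 2
  · refine ⟨2 / gm (1 / 2 + (a : ℝ)) * (KI a + 1),
      mul_pos hc (by linarith [KI_nonneg a]), fun x hx => ?_, fun m n hm hn => ?_⟩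
    · unfold V
      rw [mul_assoc]
      apply mul_le_mul_of_nonneg_left _ hc.le
      refine (IG_exp a (sq_nonneg x)).trans ?_
      apply mul_le_mul_of_nonneg_right _ (Real.exp_pos _).le
      linarith
    · have hn0 : (0 : ℝ) < n := by exact_mod_cast hn
      have hm0 : (0 : ℝ) < m := by exact_mod_cast hm
      have e1 : ((m : ℝ) / Real.sqrt (n + 1 : ℕ)) ^ 2 = (m : ℝ) ^ 2 / (n + 1) := by
        rw [div_pow, Real.sq_sqrt (by positivity)]
        push_cast
        ring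
      have e2 : ((m : ℝ) / Real.sqrt n) ^ 2 = (m : ℝ) ^ 2 / n := by
        rw [div_pow, Real.sq_sqrt hn0.le]
      unfold V
      rw [e1, e2, ← mul_sub, abs_mul, abs_of_pos hc]
      have hu : (0 : ℝ) < (m : ℝ) ^ 2 / (n + 1) := by positivity
      have huv : (m : ℝ) ^ 2 / (n + 1) ≤ (m : ℝ) ^ 2 / n :=
        div_le_div_of_nonneg_left (by positivity) hn0 (by linarith)
      have h1 := IG_diff ha hu huv
      have h2 := IG_anti a hu.le huv
      rw [abs_of_nonneg (by linarith)]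
      have h3 := sup_bd ha hu
      have h4 : ((m : ℝ) ^ 2 / n - (m : ℝ) ^ 2 / (n + 1)) = (m : ℝ) ^ 2 / (n + 1) / n := by
        field_simp
        ring
      have h5 : IG a ((m : ℝ) ^ 2 / (n + 1)) - IG a ((m : ℝ) ^ 2 / n) ≤ 1 / (n : ℝ) := by
        refine h1.trans ?_
        rw [h4, div_mul_eq_mul_div]
        exact div_le_div_of_nonneg_right h3 hn0.le
      calc 2 / gm (1 / 2 + (a : ℝ)) * (IG a ((m : ℝ) ^ 2 / (n + 1)) - IG a ((m : ℝ) ^ 2 / n))
          ≤ 2 / gm (1 / 2 + (a : ℝ)) * (1 / n) := mul_le_mul_of_nonneg_left h5 hc.le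
        _ ≤ 2 / gm (1 / 2 + (a : ℝ)) * ((KI a + 1) / n) := by
            apply mul_le_mul_of_nonneg_left _ hc.le
            apply div_le_div_of_nonneg_right _ hn0.le
            linarith [KI_nonneg a]
        _ = 2 / gm (1 / 2 + (a : ℝ)) * (KI a + 1) / n := by ring

lemma par_or (ε : ℤ) : par ε = 0 ∨ par ε = 1 := by
  unfold par
  split_ifs <;> simp

/-- the term of the series -/
def tm (ε : ℤ) (f : ℕ → ℝ) (n m : ℕ) : ℝ :=
  f m * (kron (ε * (n : ℤ)) m : ℝ) / Real.sqrt m * V (par ε) ((m : ℝ) / Real.sqrt n)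

lemma tm_zero (ε : ℤ) (f : ℕ → ℝ) (n : ℕ) : tm ε f n 0 = 0 := by
  unfold tm
  simp

lemma tm_abs (ε : ℤ) (f : ℕ → ℝ) (hf : ∀ n, |f n| ≤ 1) (n m : ℕ) (hn : 1 ≤ n) (hm : 1 ≤ m) :
    |tm ε f n m| ≤ V (par ε) ((m : ℝ) / Real.sqrt n) := by
  unfold tm
  have hn0 : (0 : ℝ) < n := by exact_mod_cast hn
  have hm0 : (0 : ℝ) < m := by exact_mod_cast hm
  have h1 := (t_VP (par ε) (par_or ε)).1 ((m : ℝ) / Real.sqrt n) (by positivity)
  rw [abs_mul, abs_of_pos h1.1]
  apply mul_le_of_le_one_left h1.1.le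
  rw [abs_div, abs_mul, abs_of_nonneg (Real.sqrt_nonneg _)]
  have h2 : (1 : ℝ) ≤ Real.sqrt m := by
    rw [Real.one_le_sqrt]
    exact_mod_cast hm
  rw [div_le_one (by linarith)]
  have h3 : |(kron (ε * (n : ℤ)) m : ℝ)| ≤ 1 := by
    have := kron_abs (ε * (n : ℤ)) m
    exact_mod_cast this
  exact (mul_le_one₀ (hf m) (abs_nonneg _) h3).trans h2

theorem t_TAL : S_TAL := by
  obtain ⟨C0, hC0, hE0, -⟩ := (t_VP 0 (Or.inl rfl)).2.2
  obtain ⟨C1, hC1, hE1, -⟩ := (t_VP 1 (Or.inr rfl)).2.2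
  set C := C0 + C1 with hC
  have hE : ∀ ε : ℤ, ∀ x : ℝ, 0 < x → V (par ε) x ≤ C * Real.exp (-x ^ 2) := by
    intro ε x hx
    have he := Real.exp_pos (-x ^ 2)
    rcases par_or ε with h | h <;> rw [h]
    · refine (hE0 x hx).trans ?_
      apply mul_le_mul_of_nonneg_right _ he.le
      linarith
    · refine (hE1 x hx).trans ?_
      apply mul_le_mul_of_nonneg_right _ he.le
      linarith
  refine ⟨C + 2, by linarith, ?_⟩
  intro ε _ f hf n N hn hnN
  have hn0 : (0 : ℝ) < n := by exact_mod_cast hn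
  -- the tail
  have htail : ∀ k : ℕ, |tm ε f n (k + (N + 1))| ≤
      C * Real.exp (-(N : ℝ)) * (Real.exp (-1)) ^ (k + 1) := by
    intro k
    have h1 := tm_abs ε f hf n (k + (N + 1)) hn (by omega)
    refine h1.trans ((hE ε _ (by positivity)).trans ?_)
    rw [mul_assoc]
    apply mul_le_mul_of_nonneg_left _ (by linarith)
    rw [← Real.exp_nat_mul, ← Real.exp_add]
    apply Real.exp_le_exp.2
    rw [div_pow, Real.sq_sqrt hn0.le]
    have h2 : (n : ℝ) ≤ (k + (N + 1) : ℕ) := by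
      exact_mod_cast (by omega : n ≤ k + (N + 1))
    have h3 : ((k + (N + 1) : ℕ) : ℝ) ≤ ((k + (N + 1) : ℕ) : ℝ) ^ 2 / n := by
      rw [le_div_iff₀ hn0, pow_two]
      exact mul_le_mul_of_nonneg_left h2 (Nat.cast_nonneg _)
    have h4 : -(N : ℝ) + ((k + 1 : ℕ) : ℝ) * -1 = -((k + (N + 1) : ℕ) : ℝ) := by
      push_cast
      ring
    rw [h4]
    linarith
  have hr1 : Real.exp (-1) < 1 := Real.exp_lt_one_iff.2 (by norm_num)
  have hr2 : Real.exp (-1) ≤ 1 / 2 := by
    rw [Real.exp_neg, one_div]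
    apply inv_anti₀ two_pos
    have := Real.add_one_le_exp (1 : ℝ)
    linarith
  have hsg : Summable fun k : ℕ => C * Real.exp (-(N : ℝ)) * (Real.exp (-1)) ^ (k + 1) := by
    apply Summable.mul_left
    have := (summable_geometric_of_lt_one (Real.exp_pos (-1)).le hr1).mul_right (Real.exp (-1))
    refine this.congr fun k => ?_
    rw [pow_succ]
  have hst : Summable fun k : ℕ => tm ε f n (k + (N + 1)) :=
    Summable.of_norm_bounded hsg (fun k => by rw [Real.norm_eq_abs]; exact htail k)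
  have hs : Summable fun m : ℕ => tm ε f n m := (summable_nat_add_iff (N + 1)).1 hst
  have hsum : LT ε f n = LN ε N f n + ∑' k : ℕ, tm ε f n (k + (N + 1)) := by
    have h1 : LT ε f n = ∑' m : ℕ, tm ε f n m := rfl
    rw [h1, ← hs.sum_add_tsum_nat_add (N + 1)]
    congr 1
    have h2 : LN ε N f n = ∑ m ∈ Icc 1 N, tm ε f n m := rfl
    rw [h2, Finset.sum_range_succ']
    rw [tm_zero, add_zero]
    rw [Finset.range_eq_Ico, Finset.sum_Ico_add' (fun m => tm ε f n m) 0 N 1, zero_add]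
    rfl
  have hT : |∑' k : ℕ, tm ε f n (k + (N + 1))| ≤ C * Real.exp (-(N : ℝ)) := by
    have h1 : |∑' k : ℕ, tm ε f n (k + (N + 1))| ≤
        ∑' k : ℕ, C * Real.exp (-(N : ℝ)) * (Real.exp (-1)) ^ (k + 1) := by
      rw [← Real.norm_eq_abs]
      exact tsum_of_norm_bounded hsg.hasSum (fun k => by rw [Real.norm_eq_abs]; exact htail k)
    refine h1.trans ?_
    rw [tsum_mul_left]
    have h2 : ∑' k : ℕ, (Real.exp (-1)) ^ (k + 1) ≤ 1 := by
      have h3 : ∑' k : ℕ, (Real.exp (-1)) ^ (k + 1) = (1 - Real.exp (-1))⁻¹ * Real.exp (-1) := by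
        rw [← tsum_geometric_of_lt_one (Real.exp_pos (-1)).le hr1, ← tsum_mul_right]
        apply tsum_congr
        intro k
        rw [pow_succ]
      rw [h3, inv_mul_le_iff₀ (by linarith)]
      linarith
    calc C * Real.exp (-(N : ℝ)) * ∑' k : ℕ, (Real.exp (-1)) ^ (k + 1)
        ≤ C * Real.exp (-(N : ℝ)) * 1 :=
          mul_le_mul_of_nonneg_left h2 (mul_nonneg (by linarith) (Real.exp_pos _).le)
      _ = _ := mul_one _
  have hLN : |LN ε N f n| ≤ 2 * N := by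
    have h2 : LN ε N f n = ∑ m ∈ Icc 1 N, tm ε f n m := rfl
    rw [h2]
    refine (Finset.abs_sum_le_sum_abs _ _).trans ?_
    calc ∑ m ∈ Icc 1 N, |tm ε f n m| ≤ ∑ m ∈ Icc 1 N, (2 : ℝ) := by
          apply Finset.sum_le_sum
          intro m hm
          rw [mem_Icc] at hm
          have hm0 : (0 : ℝ) < m := by exact_mod_cast hm.1
          exact (tm_abs ε f hf n m hn hm.1).trans
            ((t_VP (par ε) (par_or ε)).1 ((m : ℝ) / Real.sqrt n) (by positivity)).2
      _ = 2 * N := by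
          rw [Finset.sum_const, Nat.card_Icc, nsmul_eq_mul, Nat.add_sub_cancel, mul_comm]
  have hexp : Real.exp (-(N : ℝ)) ≤ 1 := by
    rw [Real.exp_le_one_iff]
    have : (0 : ℝ) ≤ N := Nat.cast_nonneg N
    linarith
  have hN1 : (1 : ℝ) ≤ N := by exact_mod_cast hn.trans hnN
  have hCp : 0 < C := by linarith
  refine ⟨?_, ?_, ?_⟩
  · rw [hsum, add_sub_cancel_left]
    refine hT.trans ?_
    apply mul_le_mul_of_nonneg_right _ (Real.exp_pos _).le
    linarith
  · rw [hsum]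
    refine (abs_add_le _ _).trans ?_
    have h1 : C * Real.exp (-(N : ℝ)) ≤ C * N := by
      apply mul_le_mul_of_nonneg_left _ hCp.le
      linarith
    linarith
  · refine hLN.trans ?_
    nlinarith

end

end Pool.Agent.Q148.TQ
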